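import Pool.Agent.H.MP_305ad1_co.A

open MvPolynomial SimpleGraph Pool.Agent.H.MP_305ad1_co

namespace Pool.Agent.Results.MP_305ad1_co.OddCycles

abbrev K (F : Type) [Field F] (n m : ℕ) : Type := FractionRing (MvPolynomial (Fin n × Fin m) F)

/-- The rows of the Jacobian matrix of the binomials of the pair `(G, H)`, over `F(x)`. -/
noncomputable def rows (F : Type) [Field F] {n m : ℕ} (G : SimpleGraph (Fin n))
    (H : SimpleGraph (Fin m)) (e : G.edgeSet × H.edgeSet) (c : Fin n × Fin m) : K F n m :=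
  algebraMap (MvPolynomial (Fin n × Fin m) F) (K F n m) (pderiv c
    (X (e.1.1.inf, e.2.1.inf) * X (e.1.1.sup, e.2.1.sup) -
      X (e.1.1.inf, e.2.1.sup) * X (e.1.1.sup, e.2.1.inf)))

def BasisProperty (F : Type) [Field F] {n m : ℕ} (G : SimpleGraph (Fin n))
    (H : SimpleGraph (Fin m)) : Prop :=
  LinearIndependent (K F n m) (rows F G H) ∧
    Submodule.span (K F n m) (Set.range (rows F G H)) =
      Submodule.span (K F n m) (Set.range (rows F (⊤ : SimpleGraph (Fin n)) (⊤ : SimpleGraph (Fin m))))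

/-- Every vertex has exactly two neighbours and every cycle has odd length. -/
def IsOddCyc {n : ℕ} (G : SimpleGraph (Fin n)) : Prop :=
  (∀ v, (G.neighborSet v).ncard = 2) ∧ ∀ v (p : G.Walk v v), p.IsCycle → Odd p.length

def Ker {V W R : Type} [CommRing R] (G : SimpleGraph V) (H : SimpleGraph W) (x : V × W → R) : Prop :=
  ∀ y, (∀ i j k l, G.Adj i j → H.Adj k l → B x y i j k l = 0) → y = 0

lemma Ker.swap {V W R : Type} [CommRing R] {G : SimpleGraph V} {H : SimpleGraph W} {x : V × W → R}
    (h : Ker G H x) : Ker H G (x ∘ Prod.swap) := fun y hy => by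
  have := h (y ∘ Prod.swap) fun i j k l h1 h2 => by
    rw [← hy k l i j h2 h1]; simp only [B, Function.comp, Prod.swap]; ring
  exact funext fun u => congrFun this u.swap

lemma span_iff {ι C R : Type} [Field R] [Fintype C] (r : ι → C → R) :
    Submodule.span R (Set.range r) = ⊤ ↔ ∀ y, (∀ e, r e ⬝ᵥ y = 0) → y = 0 := by
  classical
  constructor
  · intro h y hy
    have : ∀ v ∈ Submodule.span R (Set.range r), v ⬝ᵥ y = 0 := fun v hv => by
      induction hv using Submodule.span_induction with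
      | mem _ h => obtain ⟨e, rfl⟩ := h; exact hy e
      | zero => simp
      | add _ _ _ _ h1 h2 => rw [add_dotProduct, h1, h2, add_zero]
      | smul _ _ _ h1 => rw [smul_dotProduct, h1, smul_zero]
    funext c
    simpa using this (Pi.single c 1) (h ▸ trivial)
  · intro h
    by_contra h1
    obtain ⟨f, h2, h3⟩ := Submodule.exists_le_ker_of_lt_top _ (lt_top_iff_ne_top.2 h1)
    have e : ∀ v, f v = v ⬝ᵥ fun c => f (Pi.single c 1) := fun v => by
      rw [LinearMap.pi_apply_eq_sum_univ]
      refine Finset.sum_congr rfl fun c _ => ?_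
      rw [smul_eq_mul]
      congr 2
      funext j
      simp [Pi.single_apply, eq_comm]
    have := h _ fun i => (e _).symm.trans (h3 (Submodule.subset_span ⟨i, rfl⟩))
    exact h2 (LinearMap.ext fun v => by rw [e, this]; simp)

noncomputable def xx (F : Type) [Field F] (n m : ℕ) (c : Fin n × Fin m) : K F n m :=
  algebraMap (MvPolynomial (Fin n × Fin m) F) _ (X c)

lemma top_iff (F : Type) [Field F] {n m : ℕ} (G : SimpleGraph (Fin n)) (H : SimpleGraph (Fin m)) :
    Submodule.span (K F n m) (Set.range (rows F G H)) = ⊤ ↔ Ker G H (xx F n m) := by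
  have e : ∀ y e, rows F G H e ⬝ᵥ y = B (xx F n m) y e.1.1.inf e.1.1.sup e.2.1.inf e.2.1.sup := by
    intro y e
    simp only [rows, dotProduct, B, xx, map_sub, map_add, Derivation.leibniz, pderiv_X, smul_eq_mul,
      Pi.single_apply, apply_ite (algebraMap (MvPolynomial (Fin n × Fin m) F) (K F n m)),
      map_zero, add_mul, sub_mul, mul_ite, ite_mul, Finset.sum_add_distrib,
      Finset.sum_sub_distrib, mul_one, mul_zero, zero_mul, Finset.sum_ite_eq, Finset.mem_univ,
      if_true]
    ring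
  rw [span_iff]
  refine forall_congr' fun y => imp_congr_left ⟨fun h i j k l h1 h2 => ?_, fun h ⟨⟨a, ha⟩, b, hb⟩ => ?_⟩
  · have := h (⟨s(i, j), h1⟩, ⟨s(k, l), h2⟩)
    rw [e] at this
    simp only [Sym2.inf_mk, Sym2.sup_mk] at this
    rcases le_total i j with h3 | h3 <;> rcases le_total k l with h4 | h4 <;>
      simp only [inf_of_le_left, sup_of_le_right, inf_of_le_right, sup_of_le_left, h3, h4, B]
        at this ⊢ <;> first | linear_combination this | linear_combination -this
  · rw [e]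
    induction a using Sym2.ind with | _ i j => ?_
    induction b using Sym2.ind with | _ k l => ?_
    simp only [Sym2.inf_mk, Sym2.sup_mk]
    refine h _ _ _ _ ?_ ?_
    · rcases le_total i j with h3 | h3 <;> simp only [inf_of_le_left, sup_of_le_right,
        inf_of_le_right, sup_of_le_left, h3]
      exacts [ha, Adj.symm ha]
    · rcases le_total k l with h3 | h3 <;> simp only [inf_of_le_left, sup_of_le_right,
        inf_of_le_right, sup_of_le_left, h3]
      exacts [hb, Adj.symm hb]

/-- an odd cycle through every vertex -/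
def Cov {n : ℕ} (G : SimpleGraph (Fin n)) : Prop :=
  ∀ v, ∃ p < n, Odd (p + 1) ∧ 2 ≤ p ∧ ∃ φ : ZMod (p + 1) → Fin n, Function.Injective φ ∧
    φ 0 = v ∧ ∀ a, G.Adj (φ a) (φ (a + 1))

lemma cov_top {n : ℕ} (hn : 3 ≤ n) : Cov (⊤ : SimpleGraph (Fin n)) := fun v => by
  have hi : Function.Injective (Equiv.swap ⟨0, by omega⟩ v ∘ Fin.castLE hn) :=
    (Equiv.injective _).comp (Fin.castLE_injective _)
  exact ⟨2, hn, by decide, le_rfl, _, hi, Equiv.swap_apply_left _ _, fun a =>
    hi.ne ((by decide : ∀ a : Fin 3, a ≠ a + 1) a)⟩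

lemma cov_odd {n : ℕ} {G : SimpleGraph (Fin n)} (h : IsOddCyc G) : Cov G := fun v => by
  obtain ⟨w, hw, -⟩ := IsCycles.exists_cycle_toSubgraph_verts_eq_connectedComponentSupp
    (c := G.connectedComponentMk v) (fun v _ => h.1 v) rfl
    (Set.nonempty_of_ncard_ne_zero (by rw [h.1]; omega))
  have h3 := hw.three_le_length
  obtain ⟨p, hp⟩ : ∃ p, w.length = p + 1 := ⟨w.length - 1, by omega⟩
  have hi : Function.Injective fun a : ZMod (p + 1) => w.getVert a.val := fun a b e =>
    ZMod.val_injective _ (hw.getVert_injOn' (show a.val ≤ _ by have := a.val_lt; omega)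
      (show b.val ≤ _ by have := b.val_lt; omega) e)
  refine ⟨p, by simpa using Fintype.card_le_of_injective _ hi, hp ▸ h.2 v w hw, by omega, _, hi,
    by simp, fun a => ?_⟩
  have : Fact (1 < p + 1) := ⟨by omega⟩
  have ha := a.val_lt
  have h1 := w.adj_getVert_succ (i := a.val) (by omega)
  rw [ZMod.val_add, ZMod.val_one]
  by_cases h2 : a.val = p
  · rw [h2, ← hp, w.getVert_length] at h1
    rwa [h2, Nat.mod_self, w.getVert_zero]
  · rwa [Nat.mod_eq_of_lt (by omega)]

lemma deg2 {n : ℕ} {W R : Type} [Field R] [Nonempty W] {G : SimpleGraph (Fin n)}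
    {H : SimpleGraph W} {x : Fin n × W → R} (hx : ∀ c, x c ≠ 0) (hK : Ker G H x)
    (hG : ∀ v, ∃ w, G.Adj v w) (v : Fin n) : 2 ≤ (G.neighborSet v).ncard := by
  obtain ⟨w, hw⟩ := hG v
  by_contra h
  have h1 : ∀ u, G.Adj v u → u = w := fun u hu =>
    (Set.ncard_le_one (s := G.neighborSet v) (Set.toFinite _)).1 (by omega) u hu w hw
  have := congrFun (hK (fun c => if c.1 = v then x (w, c.2) else 0) fun i j k l h2 _ => by
    by_cases hi : i = v
    · subst hi
      obtain rfl := h1 j h2
      simp [B, h2.ne', mul_comm]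
    · by_cases hj : j = v
      · subst hj
        obtain rfl := h1 i h2.symm
        simp [B, hi, mul_comm]
      · simp [B, hi, hj]) (v, Classical.arbitrary W)
  simp [hx] at this

lemma odd {n : ℕ} {W R : Type} [Field R] [Nonempty W] {G : SimpleGraph (Fin n)}
    {H : SimpleGraph W} {x : Fin n × W → R} (hx : ∀ c, x c ≠ 0) (hK : Ker G H x)
    (hG : ∀ v, (G.neighborSet v).ncard = 2) : IsOddCyc G := by
  classical
  refine ⟨hG, fun v p hp => Nat.not_even_iff_odd.1 fun he => ?_⟩
  have h3 := hp.three_le_length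
  let s : Fin n → R := fun w => ∑ k ∈ Finset.range p.length, if p.getVert k = w then (-1) ^ k else 0
  have h1 : ∀ k < p.length, s (p.getVert k) = (-1) ^ k := fun k hk => by
    refine (Finset.sum_eq_single_of_mem k (Finset.mem_range.2 hk) fun j hj h => if_neg fun e =>
      h (hp.getVert_injOn' (show j ≤ _ by have := Finset.mem_range.1 hj; omega)
        (show k ≤ _ by omega) e)).trans (if_pos rfl)
  have h2 : ∀ k < p.length, s (p.getVert k) + s (p.getVert (k + 1)) = 0 := fun k hk => by
    rw [h1 k hk]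
    by_cases h : k + 1 = p.length
    · have := h1 0 (by omega)
      rw [p.getVert_zero] at this
      have h4 := he.neg_one_pow (α := R)
      rw [← h, pow_succ] at h4
      rw [h, p.getVert_length, this]
      linear_combination -h4
    · rw [h1 _ (by omega)]; ring
  have h4 : ∀ i j, G.Adj i j → i ∈ p.support → s i + s j = 0 := fun i j h hi => by
    obtain ⟨k, e, hk⟩ := (p.toSubgraph_adj_iff).1
      ((hp.adj_toSubgraph_iff_of_isCycles (fun v _ => hG v) (p.mem_verts_toSubgraph.2 hi) j).2 h)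
    rcases Sym2.eq_iff.1 e with ⟨rfl, rfl⟩ | ⟨rfl, rfl⟩
    · exact h2 k hk
    · rw [add_comm]; exact h2 k hk
  have h5 : ∀ i, i ∉ p.support → s i = 0 := fun i hi =>
    Finset.sum_eq_zero fun k _ => if_neg fun e : p.getVert k = i => hi (e ▸ p.getVert_mem_support k)
  have h6 : ∀ i j, G.Adj i j → s i + s j = 0 := fun i j h => by
    by_cases hi : i ∈ p.support
    · exact h4 i j h hi
    by_cases hj : j ∈ p.support
    · rw [add_comm]; exact h4 j i h.symm hj
    · rw [h5 i hi, h5 j hj, add_zero]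
  have := congrFun (hK (fun c => s c.1 * x c) fun i j k l h _ => by
    simp only [B]
    linear_combination (x (i, k) * x (j, l) - x (i, l) * x (j, k)) * h6 i j h)
    (p.getVert 0, Classical.arbitrary W)
  simp only [h1 0 (by omega), pow_zero, one_mul, Pi.zero_apply] at this
  exact hx _ this

lemma hs {n : ℕ} (G : SimpleGraph (Fin n)) :
    ∑ v, (G.neighborSet v).ncard = 2 * Nat.card G.edgeSet := by
  classical
  rw [Nat.card_eq_fintype_card, ← edgeFinset_card, ← sum_degrees_eq_twice_card_edges]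
  exact Finset.sum_congr rfl fun v _ => by
    rw [← card_neighborSet_eq_degree, ← Nat.card_eq_fintype_card, Nat.card_coe_set_eq]

lemma all2 {n : ℕ} {G : SimpleGraph (Fin n)} (h : ∀ v, 2 ≤ (G.neighborSet v).ncard) :
    n ≤ Nat.card G.edgeSet ∧ (Nat.card G.edgeSet = n → ∀ v, (G.neighborSet v).ncard = 2) := by
  have h1 := Finset.sum_le_sum fun v (_ : v ∈ Finset.univ) => h v
  have h2 : ∑ _v : Fin n, 2 = 2 * n := by simp [mul_comm]
  refine ⟨by rw [hs, h2] at h1; omega, fun e v => ?_⟩
  exact ((Finset.sum_eq_sum_iff_of_le fun v _ => h v).1 (by rw [hs, h2, e]) v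
    (Finset.mem_univ _)).symm

theorem result (n m : ℕ) (hn : 3 ≤ n) (hm : 3 ≤ m) : ∃ P : ℕ, ∀ (F : Type) [Field F],
    (ringChar F = 0 ∨ P < ringChar F) → ∀ (G : SimpleGraph (Fin n)) (H : SimpleGraph (Fin m)),
    (∀ v, ∃ w, G.Adj v w) → (∀ v, ∃ w, H.Adj v w) →
    (BasisProperty F G H ↔ IsOddCyc G ∧ IsOddCyc H) := by
  classical
  choose c hc0 hc using gen
  refine ⟨(Finset.range n ×ˢ Finset.range m).sup fun u => c u.1 u.2, fun F _ hF G H hG hH => ?_⟩
  have hk : ∀ (G : SimpleGraph (Fin n)) (H : SimpleGraph (Fin m)), Cov G → Cov H →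
      Ker G H (xx F n m) := fun G H h1 h2 y hy => by
    funext ⟨a, b⟩
    obtain ⟨p, p1, p2, p3, φ, p4, rfl, p5⟩ := h1 a
    obtain ⟨q, q1, q2, q3, ψ, q4, rfl, q5⟩ := h2 b
    refine hc p q p2 q2 p3 q3 F _ _ (fun h => ?_) φ ψ p4 q4 y
      (fun a b => hy _ _ _ _ (p5 a) (q5 b)) 0 0
    rw [ringChar.spec] at h
    rcases hF with hF | hF
    · rw [hF, zero_dvd_iff] at h; exact hc0 _ _ h
    · exact absurd ((Nat.le_of_dvd (Nat.pos_of_ne_zero (hc0 _ _)) h).trans (Finset.le_sup
        (f := fun u : ℕ × ℕ => c u.1 u.2) (b := (p, q)) (by simp [p1, q1]))) (not_le.2 hF)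
  have hx : ∀ c, xx F n m c ≠ 0 := fun c =>
    (map_ne_zero_iff _ (IsFractionRing.injective _ _)).2 (X_ne_zero c)
  have : Nonempty (Fin n) := ⟨⟨0, by omega⟩⟩
  have : Nonempty (Fin m) := ⟨⟨0, by omega⟩⟩
  rw [BasisProperty, (top_iff F _ _).2 (hk _ _ (cov_top hn) (cov_top hm))]
  have hcd : Fintype.card (G.edgeSet × H.edgeSet) = Nat.card G.edgeSet * Nat.card H.edgeSet := by
    rw [← Nat.card_eq_fintype_card, Nat.card_prod]
  constructor
  · rintro ⟨h1, h2⟩
    have h3 := finrank_span_eq_card h1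
    rw [h2, finrank_top, Module.finrank_fintype_fun_eq_card, hcd, Fintype.card_prod,
      Fintype.card_fin, Fintype.card_fin] at h3
    rw [top_iff] at h2
    obtain ⟨a1, a2⟩ := all2 (deg2 hx h2 hG)
    obtain ⟨b1, b2⟩ := all2 (deg2 (fun c => hx _) h2.swap hH)
    exact ⟨odd hx h2 (a2 (by nlinarith)), odd (fun c => hx _) h2.swap (b2 (by nlinarith))⟩
  · rintro ⟨h1, h2⟩
    have h3 := (top_iff F _ _).2 (hk _ _ (cov_odd h1) (cov_odd h2))
    refine ⟨linearIndependent_of_top_le_span_of_card_eq_finrank h3.ge ?_, h3⟩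
    have a := hs G
    have b := hs H
    simp only [h1.1, h2.1, Finset.sum_const, Finset.card_univ, Fintype.card_fin, smul_eq_mul] at a b
    rw [Module.finrank_fintype_fun_eq_card, hcd, Fintype.card_prod, Fintype.card_fin,
      Fintype.card_fin]
    congr 1 <;> omega

end Pool.Agent.Results.MP_305ad1_co.OddCycles
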